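import Pool.Agent.W36.UM
import Pool.Agent.H828R3.GP.Three
import Pool.Agent.Y965.PS.Orb

/-! The number of the `|x| ≤ X` whose orbit has no small element, uniformly in `d` (after the starting file
MP_d0d59f_nt/UniformInD). -/

set_option autoImplicit false

namespace Pool.Agent.H417_pse

open Pool.Agent.H319R3.GC (Adm Tm PP)
open Pool.Agent.H828R3.GP (m3 r3 adm3 Tm3)
open Pool.Agent.W36 (kr power_savingU)
open Pool.Agent.Y965.PS (Tz)

theorem kr_r3 (d : ℤ) : kr d (r3 1) = r3 d := by
  funext i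
  unfold kr r3
  split_ifs <;> simp

theorem PP_m3 : PP 2 m3 = 3 := by
  unfold PP m3
  simp [Finset.prod_range_succ]

/-- the bound for all integers, uniformly in `d` (after the starting file MP_d0d59f_nt/UniformInD) -/
theorem uniform_below (c : ℝ) (hc0 : 0 < c)
    (hc : c < 1 - Real.binEntropy (Real.log 2 / Real.log 3) / Real.log 2) :
    ∃ C : ℝ, 0 < C ∧ ∀ d : ℤ, d % 2 = 1 → ¬ (3 : ℤ) ∣ d → ∀ X y : ℝ, 1 ≤ X → 0 < y →
      ({x : ℤ | |(x : ℝ)| ≤ X ∧ ∀ n : ℕ, y < |(((Tz d)^[n] x : ℤ) : ℝ)|}.ncard : ℝ)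
        ≤ C * X * (|(d : ℝ)| / y) ^ c := by
  have hc' : c < 1 - Pool.Agent.H319R2.beta := hc
  obtain ⟨η, hη1, hη2⟩ := exists_between (max_lt (by linarith : Pool.Agent.H319R2.beta < 1 - c)
    (by
        have h1 : (0 : ℝ) ≤ Pool.Agent.H319R2.beta := by
          unfold Pool.Agent.H319R2.beta
          apply div_nonneg _ (Real.log_nonneg (by norm_num))
          apply Real.binEntropy_nonneg
          · exact div_nonneg (Real.log_nonneg (by norm_num)) (Real.log_nonneg (by norm_num))
          · rw [div_le_one (Real.log_pos (by norm_num))]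
            exact Real.log_le_log (by norm_num) (by norm_num)
        linarith : (0 : ℝ) < 1 - c))
  have hb : Pool.Agent.H319R2.beta < η := (le_max_left _ _).trans_lt hη1
  have h0 : 0 < η := (le_max_right _ _).trans_lt hη1
  obtain ⟨s, hs, hsum⟩ := Pool.Agent.H319R2.Tk.cond η hb
  obtain ⟨C, hC, h⟩ := power_savingU (adm3 (k := 1) odd_one) (s := s) (η := η) hs h0.le (by linarith) (by
    rw [Finset.sum_range_succ, Finset.sum_range_one]
    simp only [m3]
    norm_num
    have e : (1 / 2 : ℝ) ^ s = 2⁻¹ ^ s := by norm_num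
    rw [e] at hsum
    first
      | exact hsum.le
      | (refine le_trans (le_of_eq ?_) hsum.le; norm_num)) hc0 (by linarith)
  refine ⟨C, hC, fun d hd hd3 X y hX hy => ?_⟩
  have hodd : Odd d := Int.odd_iff.2 hd
  have hcop : IsCoprime d (PP 2 m3 : ℤ) := by
    rw [PP_m3]
    have h3 : Prime (3 : ℤ) := Int.prime_three
    exact_mod_cast ((Prime.coprime_iff_not_dvd h3).2 hd3).symm
  have h1 := h d (by rintro rfl; simp at hd) hcop (by rw [kr_r3]; exact adm3 hodd) X y hX hy
  have T_eq : (Tz d : ℤ → ℤ) = Pool.Agent.H499R2.ND.Td d := rfl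
  rw [kr_r3, Tm3, ← T_eq] at h1
  exact h1

end Pool.Agent.H417_pse
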