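import Pool.Agent.H417_pse.Low
import Pool.Agent.H319R2.Sparse

/-! Finite sets which are met by the orbits of almost all `±⌊n ^ c⌋`, uniformly in `d`. -/

set_option autoImplicit false

namespace Pool.Agent.H417_pse

open Finset Filter Topology Pool.Agent.Y965.PS Pool.Agent.Y965.PL

theorem fin_sets {c : ℝ} (hc : 1 < c) (hc' : c < 101 / 100) {ε : ℝ} (hε : 0 < ε) :
    ∃ A B : ℝ, 0 < A ∧ 0 < B ∧ ∀ d : ℤ, Odd d → ¬ (3 : ℤ) ∣ d → ∀ s : ℤ, (s = 1 ∨ s = -1) →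
      ∀ X : ℕ, B * |(d : ℝ)| ^ 2000 ≤ X →
      ({n : ℕ | 1 ≤ n ∧ n ≤ X ∧
        ∀ k : ℕ, A * |(d : ℝ)| < |(((Tz d)^[k] (s * ⌊(n : ℝ) ^ c⌋) : ℤ) : ℝ)|}.ncard : ℝ) ≤ ε * X := by
  have hb : 0 < 1 - Real.binEntropy (Real.log 2 / Real.log 3) / Real.log 2 := by
    have h1 : Real.binEntropy (Real.log 2 / Real.log 3) / Real.log 2 < 0.951 := Pool.Agent.H319R2.beta_lt
    linarith
  obtain ⟨κ, hκ0, hκ⟩ := exists_between hb
  obtain ⟨C, hC, H⟩ := low hc hc' hκ0 hκ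
  set t : ℝ := 2 * C / ε with ht
  have ht0 : 0 < t := by positivity
  set A : ℝ := t ^ (1 / κ) with hA
  have hA0 : 0 < A := by positivity
  have hAκ : A ^ κ = t := by
    rw [hA, ← Real.rpow_mul ht0.le, one_div_mul_cancel hκ0.ne', Real.rpow_one]
  refine ⟨A, 1 + (A + 1) ^ 4 + t ^ 4000, hA0, by positivity, ?_⟩
  intro d hd hd3 s hs X hX
  have hd0 : d ≠ 0 := by rintro rfl; exact absurd hd (by decide)
  have hD1 : (1 : ℝ) ≤ |(d : ℝ)| := by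
    have : (1 : ℤ) ≤ |d| := Int.one_le_abs hd0
    rw [← Int.cast_abs]
    exact_mod_cast this
  set D : ℝ := |(d : ℝ)| with hD
  have hD0 : 0 < D := by linarith
  have hDp : (1 : ℝ) ≤ D ^ 2000 := one_le_pow₀ hD1
  have a1 : 0 < (A + 1) ^ 4 := by positivity
  have a2 : 0 < t ^ 4000 := by positivity
  have x1 : D ^ 2000 ≤ X := by nlinarith
  have x2 : (A + 1) ^ 4 * D ^ 2000 ≤ X := by nlinarith
  have x3 : t ^ 4000 ≤ X := by nlinarith
  have hX1 : (1 : ℝ) ≤ X := hDp.trans x1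
  have hXpos : (0 : ℝ) < X := by linarith
  have hXn : 1 ≤ X := by exact_mod_cast hX1
  have root : ∀ (b : ℝ) (n : ℕ), n ≠ 0 → 0 ≤ b → b ^ n ≤ X → b ≤ (X : ℝ) ^ (1 / (n : ℝ)) := by
    intro b n hn hb h
    have h1 : (b ^ n) ^ (1 / (n : ℝ)) ≤ (X : ℝ) ^ (1 / (n : ℝ)) := Real.rpow_le_rpow (by positivity) h (by positivity)
    rwa [one_div, Real.pow_rpow_inv_natCast hb hn, ← one_div] at h1
  have r1 : D ≤ (X : ℝ) ^ (1 / 2000 : ℝ) := by
    have := root D 2000 (by norm_num) hD0.le x1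
    exact_mod_cast this
  have r2 : A * D + D ≤ (X : ℝ) ^ (3 / 10 : ℝ) := by
    have h4 : D ^ 4 ≤ D ^ 2000 := pow_le_pow_right₀ hD1 (by norm_num)
    have h5 : ((A + 1) * D) ^ 4 ≤ X := by
      rw [mul_pow]
      exact (mul_le_mul_of_nonneg_left h4 a1.le).trans x2
    have h6 := root ((A + 1) * D) 4 (by norm_num) (by positivity) h5
    have h7 : (X : ℝ) ^ (1 / ((4 : ℕ) : ℝ)) ≤ (X : ℝ) ^ (3 / 10 : ℝ) :=
      Real.rpow_le_rpow_of_exponent_le hX1 (by norm_num)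
    linarith
  have r3 : C * (X : ℝ) ^ (1 - 1 / 4000 : ℝ) ≤ ε / 2 * X := by
    have h6 := root t 4000 (by norm_num) ht0.le x3
    have h6' : t ≤ (X : ℝ) ^ (1 / 4000 : ℝ) := by exact_mod_cast h6
    have e : (X : ℝ) = (X : ℝ) ^ (1 / 4000 : ℝ) * (X : ℝ) ^ (1 - 1 / 4000 : ℝ) := by
      rw [← Real.rpow_add hXpos, add_sub_cancel, Real.rpow_one]
    have hC' : C = ε / 2 * t := by rw [ht]; field_simp
    have hp : 0 < (X : ℝ) ^ (1 - 1 / 4000 : ℝ) := Real.rpow_pos_of_pos hXpos _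
    calc C * (X : ℝ) ^ (1 - 1 / 4000 : ℝ) = ε / 2 * (t * (X : ℝ) ^ (1 - 1 / 4000 : ℝ)) := by rw [hC']; ring
      _ ≤ ε / 2 * ((X : ℝ) ^ (1 / 4000 : ℝ) * (X : ℝ) ^ (1 - 1 / 4000 : ℝ)) := by
          apply mul_le_mul_of_nonneg_left _ (by positivity)
          exact mul_le_mul_of_nonneg_right h6' hp.le
      _ = ε / 2 * X := by rw [← e]
  have h := H d hd hd3 s hs X hXn r1 (A * D) (by positivity) r2
  have h8 : (D / (A * D)) ^ κ = 1 / t := by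
    have e : D / (A * D) = 1 / A := by field_simp
    rw [e, Real.div_rpow zero_le_one hA0.le, Real.one_rpow, hAκ]
  rw [h8] at h
  have h9 : C * ((X : ℝ) * (1 / t)) = ε / 2 * X := by rw [ht]; field_simp
  rw [mul_add, h9] at h
  linarith

end Pool.Agent.H417_pse
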