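import Pool.Agent.H417_pse.Fin
import Pool.Agent.H417_psd.Tr

/-! Transfer to the sequences `⌊n ^ c⌋`, uniformly in `d`: the orbits which meet a set of small integers. -/

set_option autoImplicit false

namespace Pool.Agent.H417_pse

open Finset Filter Topology Pool.Agent.Y965.PS Pool.Agent.Y965.PL Pool.Agent.H417_psd

/-- the transfer inequality, uniformly in `d` -/
theorem transfer_Y {c : ℝ} (hc : 1 < c) (hc' : c < 101 / 100) : ∃ K : ℝ, 0 ≤ K ∧ ∀ d : ℤ, d % 2 = 1 →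
    ∀ (Y : ℤ) (F : ℤ → ℝ), AS d Y F → ∀ X : ℕ, 1 ≤ X → |(d : ℝ)| ≤ (X : ℝ) ^ (1 / 2000 : ℝ) →
    (Y : ℝ) ≤ (X : ℝ) ^ (3 / 10 : ℝ) →
    |∑ n ∈ Icc 1 X, F ⌊(n : ℝ) ^ c⌋ - ∑ m ∈ Icc 1 ⌊(X : ℝ) ^ c⌋₊, F m * ell (1 / c) m| ≤
      K * (X : ℝ) ^ (1 - 1 / 4000 : ℝ) := by
  obtain ⟨x, hx0, hx1, hγ⟩ := params hc hc'
  have hc0 : 0 < c := by linarith
  obtain ⟨K1, hK1, H1⟩ := Pool.Agent.H417_pse.main_bound hx0 hx1
  refine ⟨K1, by linarith, ?_⟩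
  intro d hd Y F hF X hX hdX hYX
  have hX1 : (1 : ℝ) ≤ X := by exact_mod_cast hX
  set M := ⌊(X : ℝ) ^ c⌋₊ with hM
  have hXM : X ≤ M := by
    apply Nat.le_floor
    calc (X : ℝ) = (X : ℝ) ^ (1 : ℝ) := (Real.rpow_one _).symm
      _ ≤ (X : ℝ) ^ c := Real.rpow_le_rpow_of_exponent_le hX1 hc.le
  have hM1 : 1 ≤ M := hX.trans hXM
  have hpow : ∀ b e : ℝ, b = e → 0 ≤ b → (X : ℝ) ^ b ≤ Real.exp (e * Real.log M) := by
    rintro b _ rfl hb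
    have h1 : (X : ℝ) ^ b ≤ (M : ℝ) ^ b :=
      Real.rpow_le_rpow (by positivity) (by exact_mod_cast hXM) hb
    refine h1.trans (le_of_eq ?_)
    rw [Real.rpow_def_of_pos (by exact_mod_cast hM1), mul_comm]
  have hdM : |(d : ℝ)| ≤ Real.exp (0.0005 * Real.log M) :=
    hdX.trans (hpow _ _ (by norm_num) (by norm_num))
  have hYM : (Y : ℝ) ≤ Real.exp (0.3 * Real.log M) :=
    hYX.trans (hpow _ _ (by norm_num) (by norm_num))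
  rw [conv hc.le X F, ← sum_sub_distrib]
  have h2 : ∑ m ∈ Icc 1 M, (F (m : ℤ) * ((⌈((m : ℝ) + 1) ^ (1 / c)⌉ : ℝ) - ⌈(m : ℝ) ^ (1 / c)⌉)
      - F (m : ℤ) * ell (1 / c) m) = ∑ m ∈ Icc 1 M, F (m : ℤ) * ww (1 - x) (1 * m) := by
    apply sum_congr rfl
    intro m _
    unfold ww ell
    rw [hγ, one_mul]
    ring
  rw [h2]
  exact (H1 d hd M hM1 hdM 1 le_rfl (by norm_num) Y hYM F hF).trans
    (mul_le_mul_of_nonneg_left (M_pow hc hγ hx1 hX (Nat.floor_le (by positivity))) (by linarith))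

theorem Tz_side {d : ℤ} (hd : Odd d) {s : ℤ} (hs : s = 1 ∨ s = -1) (x : ℤ) : Tz d (s * x) = s * Tz (s * d) x := by
  obtain ⟨q, rfl⟩ := hd
  rcases hs with rfl | rfl
  · rw [one_mul, one_mul, one_mul]
  · unfold Tz
    split_ifs <;> omega

theorem iter_side {d : ℤ} (hd : Odd d) {s : ℤ} (hs : s = 1 ∨ s = -1) (k : ℕ) :
    ∀ x : ℤ, (Tz d)^[k] (s * x) = s * (Tz (s * d))^[k] x := by
  induction k with
  | zero => intro x; rfl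
  | succ k ih => intro x; rw [Function.iterate_succ_apply, Tz_side hd hs, ih, ← Function.iterate_succ_apply]

/-- the first terms of the trajectory of a large number are large -/
theorem it_big {d : ℤ} (hd2 : d % 2 = 1) {x y : ℤ} {j i : ℕ} (hy : 0 ≤ y) (h : (y + |d|) * 2 ^ j < x)
    (hi : i ≤ j) : y < (Tz d)^[i] x := by
  have h1 := main_id hd2 x i
  have h2 := Pool.Agent.H417_psd.oc_le (d := d) x i
  have h3 := oc_nonneg (d := d) x i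
  have hb : (1 : ℤ) ≤ 2 ^ (ac d i x) := one_le_pow₀ (by norm_num)
  have ha : (1 : ℤ) ≤ 3 ^ (ac d i x) := one_le_pow₀ (by norm_num)
  have hq : (0 : ℤ) < 2 ^ i := by positivity
  have hqj : (2 : ℤ) ^ i ≤ 2 ^ j := pow_le_pow_right₀ (by norm_num) hi
  have hd0 := abs_nonneg d
  have hx : (y + |d|) * 2 ^ i < x := lt_of_le_of_lt (mul_le_mul_of_nonneg_left hqj (by linarith)) h
  set a : ℤ := 3 ^ (ac d i x)
  set b : ℤ := 2 ^ (ac d i x)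
  set q : ℤ := 2 ^ i
  set o : ℤ := oc d i x
  set t : ℤ := (Tz d)^[i] x
  have ho : o ≤ q * a := by nlinarith
  have hdo : -(|d| * o) ≤ d * o := by nlinarith [neg_abs_le d]
  have hdo2 : |d| * o ≤ |d| * (q * a) := mul_le_mul_of_nonneg_left ho hd0
  have h5 : a * ((y + |d|) * q) < a * x := mul_lt_mul_of_pos_left hx (by linarith)
  have h6 : y * q ≤ a * (y * q) := le_mul_of_one_le_left (mul_nonneg hy hq.le) ha
  by_contra hcon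
  have h7 : q * t ≤ q * y := mul_le_mul_of_nonneg_left (not_lt.1 hcon) hq.le
  nlinarith

open Classical in
/-- THE TRANSFER INEQUALITY for the sets which are invariant along the first terms of the trajectories of large
integers -/
theorem set_transfer {c : ℝ} (hc : 1 < c) (hc' : c < 101 / 100) : ∃ K : ℝ, 0 ≤ K ∧ ∀ d : ℤ, Odd d →
    ∀ s : ℤ, (s = 1 ∨ s = -1) → ∀ X : ℕ, 1 ≤ X → |(d : ℝ)| ≤ (X : ℝ) ^ (1 / 2000 : ℝ) →
    ∀ Y : ℤ, (Y : ℝ) ≤ (X : ℝ) ^ (3 / 10 : ℝ) → ∀ S : Set ℤ,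
    (∀ (j : ℕ) (x : ℤ), Y * 2 ^ j < x → (s * x ∈ S ↔ (Tz d)^[j] (s * x) ∈ S)) →
    |({n : ℕ | 1 ≤ n ∧ n ≤ X ∧ s * ⌊(n : ℝ) ^ c⌋ ∈ S}.ncard : ℝ) -
      ∑ m ∈ (Icc 1 ⌊(X : ℝ) ^ c⌋₊).filter (fun m : ℕ => s * (m : ℤ) ∈ S),
        (((m : ℝ) + 1) ^ (1 / c) - (m : ℝ) ^ (1 / c))| ≤ K * (X : ℝ) ^ (1 - 1 / 4000 : ℝ) := by
  obtain ⟨K, hK, h⟩ := transfer_Y hc hc'
  refine ⟨K, hK, fun d hd s hs X hX hdX Y hYX S hS => ?_⟩
  have hodd := Int.odd_iff.1 (Pool.Agent.H499R2.ND.side_odd hd hs)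
  have hAS : AS (s * d) Y (iF {x : ℤ | s * x ∈ S}) := by
    refine ⟨iF_abs _, fun j x y hx hy hxy _ => ?_⟩
    apply iF_congr
    show s * x ∈ S ↔ s * y ∈ S
    rw [hS j x hx, hS j y hy, iter_side hd hs, iter_side hd hs, hxy]
  have h1 := h (s * d) hodd Y _ hAS X hX (by rw [abs_side hs]; exact hdX) hYX
  have e1 : ({n : ℕ | 1 ≤ n ∧ n ≤ X ∧ s * ⌊(n : ℝ) ^ c⌋ ∈ S}.ncard : ℝ) =
      ∑ n ∈ Icc 1 X, iF {x : ℤ | s * x ∈ S} ⌊(n : ℝ) ^ c⌋ := by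
    have e : {n : ℕ | 1 ≤ n ∧ n ≤ X ∧ s * ⌊(n : ℝ) ^ c⌋ ∈ S} =
        ((Icc 1 X).filter fun n : ℕ => s * ⌊(n : ℝ) ^ c⌋ ∈ S : Finset ℕ) := by
      ext n
      simp only [Set.mem_ofPred_eq, coe_filter, mem_Icc, and_assoc]
    rw [e, Set.ncard_coe_finset]
    unfold iF
    simp only [Set.mem_ofPred_eq]
    rw [sum_boole]
  have e2 : ∑ m ∈ (Icc 1 ⌊(X : ℝ) ^ c⌋₊).filter (fun m : ℕ => s * (m : ℤ) ∈ S),
      (((m : ℝ) + 1) ^ (1 / c) - (m : ℝ) ^ (1 / c)) =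
      ∑ m ∈ Icc 1 ⌊(X : ℝ) ^ c⌋₊, iF {x : ℤ | s * x ∈ S} m * ell (1 / c) m := by
    rw [sum_filter]
    apply sum_congr rfl
    intro m _
    unfold iF ell
    simp only [Set.mem_ofPred_eq]
    split_ifs
    · rw [one_mul]
    · rw [zero_mul]
  rw [e1, e2]
  exact h1

/-- the integers whose orbits meet `F` -/
def Hit (d : ℤ) (F : Set ℤ) : Set ℤ := {x | ∃ k : ℕ, (Tz d)^[k] x ∈ F}

theorem hit_iff {d : ℤ} (hd : Odd d) {s : ℤ} (hs : s = 1 ∨ s = -1) {F : Set ℤ} {y : ℤ} (hy : 0 ≤ y)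
    (hF : ∀ z ∈ F, |z| ≤ y) (j : ℕ) (x : ℤ) (h : (y + |d|) * 2 ^ j < x) :
    s * x ∈ Hit d F ↔ (Tz d)^[j] (s * x) ∈ Hit d F := by
  have habs : |s * d| = |d| := by
    rcases hs with rfl | rfl
    · rw [one_mul]
    · rw [neg_one_mul, abs_neg]
  have hodd := Int.odd_iff.1 (Pool.Agent.H499R2.ND.side_odd hd hs)
  constructor
  · rintro ⟨k, hk⟩
    have hjk : j < k := by
      by_contra hcon
      have h1 := it_big hodd (x := x) (y := y) (j := j) (i := k) hy (by rw [habs]; exact h) (not_lt.1 hcon)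
      have h2 := hF _ hk
      rw [iter_side hd hs, abs_mul] at h2
      have h3 : |s| = 1 := by rcases hs with rfl | rfl <;> norm_num
      rw [h3, one_mul] at h2
      have h4 := le_abs_self ((Tz (s * d))^[k] x)
      omega
    refine ⟨k - j, ?_⟩
    rw [← Function.iterate_add_apply, Nat.sub_add_cancel hjk.le]
    exact hk
  · rintro ⟨k, hk⟩
    exact ⟨k + j, by rw [Function.iterate_add_apply]; exact hk⟩

/-- the threshold -/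
theorem thr {d : ℤ} {X : ℕ} (hX : 1 ≤ X) (hdX : |(d : ℝ)| ≤ (X : ℝ) ^ (1 / 2000 : ℝ)) :
    0 ≤ ⌊(X : ℝ) ^ (3 / 10 : ℝ)⌋ - |d| ∧ ((⌊(X : ℝ) ^ (3 / 10 : ℝ)⌋ - |d| + |d| : ℤ) : ℝ) ≤ (X : ℝ) ^ (3 / 10 : ℝ) := by
  have hX1 : (1 : ℝ) ≤ X := by exact_mod_cast hX
  constructor
  · have h1 : |d| ≤ ⌊(X : ℝ) ^ (3 / 10 : ℝ)⌋ := by
      rw [Int.le_floor, Int.cast_abs]
      exact hdX.trans (Real.rpow_le_rpow_of_exponent_le hX1 (by norm_num))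
    linarith
  · rw [sub_add_cancel]
    exact Int.floor_le _

open Classical in
/-- the orbits which meet `F` -/
theorem hit_transfer {c : ℝ} (hc : 1 < c) (hc' : c < 101 / 100) : ∃ K : ℝ, 0 ≤ K ∧ ∀ d : ℤ, Odd d →
    ∀ s : ℤ, (s = 1 ∨ s = -1) → ∀ X : ℕ, 1 ≤ X → |(d : ℝ)| ≤ (X : ℝ) ^ (1 / 2000 : ℝ) →
    ∀ F : Set ℤ, (∀ z ∈ F, |(z : ℝ)| + |(d : ℝ)| ≤ (X : ℝ) ^ (3 / 10 : ℝ)) →
    ∀ S : Set ℤ, (S = Hit d F ∨ S = (Hit d F)ᶜ) →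
    |({n : ℕ | 1 ≤ n ∧ n ≤ X ∧ s * ⌊(n : ℝ) ^ c⌋ ∈ S}.ncard : ℝ) -
      ∑ m ∈ (Icc 1 ⌊(X : ℝ) ^ c⌋₊).filter (fun m : ℕ => s * (m : ℤ) ∈ S),
        (((m : ℝ) + 1) ^ (1 / c) - (m : ℝ) ^ (1 / c))| ≤ K * (X : ℝ) ^ (1 - 1 / 4000 : ℝ) := by
  obtain ⟨K, hK, h⟩ := set_transfer hc hc'
  refine ⟨K, hK, fun d hd s hs X hX hdX F hF S hS => ?_⟩
  obtain ⟨t1, t2⟩ := thr (d := d) hX hdX
  have hF' : ∀ z ∈ F, |z| ≤ ⌊(X : ℝ) ^ (3 / 10 : ℝ)⌋ - |d| := by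
    intro z hz
    have h1 : |z| + |d| ≤ ⌊(X : ℝ) ^ (3 / 10 : ℝ)⌋ := by
      rw [Int.le_floor]
      push_cast
      exact hF z hz
    linarith
  refine h d hd s hs X hX hdX _ t2 S ?_
  intro j x hx
  have h1 := hit_iff hd hs t1 hF' j x hx
  rcases hS with rfl | rfl
  · exact h1
  · exact not_congr h1

end Pool.Agent.H417_pse
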