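import Pool.Agent.H417_pse.Below
import Pool.Agent.H417_pse.Tr

/-! The number of the `n ≤ X` for which the orbit of `±⌊n ^ c⌋` has no small element, uniformly in `d`. -/

set_option autoImplicit false

namespace Pool.Agent.H417_pse

open Finset Filter Topology Pool.Agent.Y965.PS Pool.Agent.Y965.PL Pool.Agent.H417_psd

open Classical in
theorem card_two (d : ℤ) {s : ℤ} (hs : s = 1 ∨ s = -1) (y : ℝ) (m : ℕ) :
    ((Icc 1 m).filter (fun k : ℕ => ∀ n : ℕ, y < |(((Tz d)^[n] (s * (k : ℤ)) : ℤ) : ℝ)|)).card ≤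
      {x : ℤ | |(x : ℝ)| ≤ (m : ℝ) ∧ ∀ n : ℕ, y < |(((Tz d)^[n] x : ℤ) : ℝ)|}.ncard := by
  have hfin : {x : ℤ | |(x : ℝ)| ≤ (m : ℝ) ∧ ∀ n : ℕ, y < |(((Tz d)^[n] x : ℤ) : ℝ)|}.Finite := by
    refine (Set.finite_Icc (-(m : ℤ)) m).subset ?_
    rintro x ⟨hx, _⟩
    rw [abs_le] at hx
    refine ⟨?_, ?_⟩
    · have := hx.1
      exact_mod_cast this
    · have := hx.2
      exact_mod_cast this
  have hinj : Function.Injective (fun k : ℕ => s * (k : ℤ)) := by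
    intro a b hab
    have hab' : s * (a : ℤ) = s * (b : ℤ) := hab
    rcases hs with rfl | rfl <;> omega
  rw [← Finset.card_image_of_injective _ hinj, ← Set.ncard_coe_finset]
  apply Set.ncard_le_ncard _ hfin
  intro x hx
  rw [Finset.mem_coe, mem_image] at hx
  obtain ⟨k, hk, rfl⟩ := hx
  rw [mem_filter, mem_Icc] at hk
  refine ⟨?_, hk.2⟩
  have h1 : |((s * (k : ℤ) : ℤ) : ℝ)| = k := by
    rcases hs with rfl | rfl
    · rw [one_mul, Int.cast_natCast, abs_of_nonneg (Nat.cast_nonneg _)]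
    · rw [neg_one_mul, Int.cast_neg, Int.cast_natCast, abs_neg, abs_of_nonneg (Nat.cast_nonneg _)]
  rw [h1]
  exact_mod_cast hk.1.2

open Classical in
/-- the orbits without small elements -/
theorem low {c : ℝ} (hc : 1 < c) (hc' : c < 101 / 100) {κ : ℝ} (hκ0 : 0 < κ)
    (hκ : κ < 1 - Real.binEntropy (Real.log 2 / Real.log 3) / Real.log 2) :
    ∃ C : ℝ, 0 < C ∧ ∀ d : ℤ, Odd d → ¬ (3 : ℤ) ∣ d → ∀ s : ℤ, (s = 1 ∨ s = -1) → ∀ X : ℕ, 1 ≤ X →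
      |(d : ℝ)| ≤ (X : ℝ) ^ (1 / 2000 : ℝ) → ∀ y : ℝ, 0 < y → y + |(d : ℝ)| ≤ (X : ℝ) ^ (3 / 10 : ℝ) →
      ({n : ℕ | 1 ≤ n ∧ n ≤ X ∧ ∀ k : ℕ, y < |(((Tz d)^[k] (s * ⌊(n : ℝ) ^ c⌋) : ℤ) : ℝ)|}.ncard : ℝ) ≤
        C * ((X : ℝ) * (|(d : ℝ)| / y) ^ κ + (X : ℝ) ^ (1 - 1 / 4000 : ℝ)) := by
  obtain ⟨C1, hC1, H1⟩ := uniform_below κ hκ0 hκ
  obtain ⟨K, hK, H2⟩ := hit_transfer hc hc'
  have hc0 : 0 < c := by linarith
  have hγ0 : 0 < 1 / c := by positivity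
  have hγ1 : 1 / c < 1 := by rw [div_lt_one hc0]; exact hc
  refine ⟨2 * C1 + K, by linarith, ?_⟩
  intro d hd hd3 s hs X hX hdX y hy hyX
  have hX1 : (1 : ℝ) ≤ X := by exact_mod_cast hX
  have hXpos : (0 : ℝ) < X := by linarith
  set F : Set ℤ := {z : ℤ | |(z : ℝ)| ≤ y} with hF
  obtain ⟨S, hS⟩ : ∃ S : Set ℤ, S = (Hit d F)ᶜ := ⟨_, rfl⟩
  have hmem : ∀ x : ℤ, x ∈ S ↔ ∀ k : ℕ, y < |(((Tz d)^[k] x : ℤ) : ℝ)| := by
    intro x
    rw [hS, Set.mem_compl_iff, hF]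
    unfold Hit
    simp only [Set.mem_ofPred_eq, not_exists, not_le]
  have h2 := H2 d hd s hs X hX hdX F (fun z hz => by
    have hz' : |(z : ℝ)| ≤ y := hz
    linarith) S (Or.inr hS)
  have h3 := (abs_le.1 h2).2
  set η : ℝ := C1 * (|(d : ℝ)| / y) ^ κ with hη
  have hη0 : 0 ≤ η := by positivity
  -- the weighted count
  have hcount : ∀ m : ℕ, |∑ k ∈ Icc 1 m, (if s * (k : ℤ) ∈ S then (1 : ℝ) else 0) - 0 * m| ≤ η * m + 0 := by
    intro m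
    rw [zero_mul, sub_zero, add_zero, Finset.sum_boole, abs_of_nonneg (Nat.cast_nonneg _)]
    rcases Nat.eq_zero_or_pos m with h0 | h0
    · subst h0
      simp
    · have g1 := H1 d (Int.odd_iff.1 hd) hd3 m y (by exact_mod_cast h0) hy
      have g2 := card_two d hs y m
      have g3 : ((Icc 1 m).filter (fun k : ℕ => s * (k : ℤ) ∈ S)).card =
          ((Icc 1 m).filter (fun k : ℕ => ∀ n : ℕ, y < |(((Tz d)^[n] (s * (k : ℤ)) : ℤ) : ℝ)|)).card := by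
        congr 1
        ext k
        rw [mem_filter, mem_filter, hmem]
      rw [g3]
      refine le_trans (by exact_mod_cast g2) (g1.trans (le_of_eq ?_))
      rw [hη]; ring
  set M := ⌊(X : ℝ) ^ c⌋₊ with hM
  have hab := (abs_le.1 (abel hγ0 hγ1 hη0 le_rfl hcount M)).2
  have hw : ∑ m ∈ (Icc 1 M).filter (fun m : ℕ => s * (m : ℤ) ∈ S), (((m : ℝ) + 1) ^ (1 / c) - (m : ℝ) ^ (1 / c)) =
      ∑ m ∈ Icc 1 M, (if s * (m : ℤ) ∈ S then (1 : ℝ) else 0) * ell (1 / c) m := by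
    rw [sum_filter]
    apply sum_congr rfl
    intro m _
    unfold ell
    split_ifs
    · rw [one_mul]
    · rw [zero_mul]
  have h7 : ((M : ℝ) + 1) ^ (1 / c) ≤ X + 1 := by
    have h6 : (M : ℝ) ≤ (X : ℝ) ^ c := Nat.floor_le (by positivity)
    have h7 := pow_gap hc.le hXpos.le
    have hcγ : (((X : ℝ) + 1) ^ c) ^ (1 / c) = X + 1 := by
      rw [← Real.rpow_mul (by positivity), mul_one_div, div_self hc0.ne', Real.rpow_one]
    rw [← hcγ]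
    exact Real.rpow_le_rpow (by positivity) (by linarith) hγ0.le
  have h8 : η * ((M : ℝ) + 1) ^ (1 / c) ≤ η * (2 * X) := mul_le_mul_of_nonneg_left (by linarith) hη0
  rw [hw] at h3
  have e1 : {n : ℕ | 1 ≤ n ∧ n ≤ X ∧ ∀ k : ℕ, y < |(((Tz d)^[k] (s * ⌊(n : ℝ) ^ c⌋) : ℤ) : ℝ)|} =
      {n : ℕ | 1 ≤ n ∧ n ≤ X ∧ s * ⌊(n : ℝ) ^ c⌋ ∈ S} := by
    ext n
    simp only [Set.mem_ofPred_eq, hmem]
  rw [e1]
  have h9 : 0 ≤ (X : ℝ) * (|(d : ℝ)| / y) ^ κ := by positivity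
  have h10 : 0 ≤ (X : ℝ) ^ (1 - 1 / 4000 : ℝ) := by positivity
  have h11 : η * (2 * X) = 2 * C1 * ((X : ℝ) * (|(d : ℝ)| / y) ^ κ) := by rw [hη]; ring
  have h12 : 0 ≤ K * ((X : ℝ) * (|(d : ℝ)| / y) ^ κ) := mul_nonneg hK h9
  have h13 : 0 ≤ C1 * (X : ℝ) ^ (1 - 1 / 4000 : ℝ) := mul_nonneg hC1.le h10
  nlinarith

end Pool.Agent.H417_pse
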